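import Mathlib

/-!
# The Fell topology on the closed subsets of a space
-/

open Topology Set

namespace Pool.Agent.BCH

universe u v w

/-- The space of closed subsets of `M`. -/
def Fell (M : Type u) [TopologicalSpace M] : Type u := {E : Set M // IsClosed E}

section

variable {M : Type u} [TopologicalSpace M]

/-- The closed sets which meet `U`. -/
def Fell.hit (U : Set M) : Set (Fell M) := {E | (E.1 ∩ U).Nonempty}

/-- The closed sets which do not meet `C`. -/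
def Fell.miss (C : Set M) : Set (Fell M) := {E | ∀ p ∈ E.1, p ∉ C}

/-- The Fell topology: generated by the sets `hit U`, `U` open, and `miss C`, `C` compact. -/
instance : TopologicalSpace (Fell M) :=
  TopologicalSpace.generateFrom
    ({S | ∃ U : Set M, IsOpen U ∧ S = Fell.hit U} ∪ {S | ∃ C : Set M, IsCompact C ∧ S = Fell.miss C})

theorem Fell.isOpen_hit {U : Set M} (hU : IsOpen U) : IsOpen (Fell.hit U) :=
  TopologicalSpace.isOpen_generateFrom_of_mem (Or.inl ⟨U, hU, rfl⟩)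

theorem Fell.isOpen_miss {C : Set M} (hC : IsCompact C) : IsOpen (Fell.miss C) :=
  TopologicalSpace.isOpen_generateFrom_of_mem (Or.inr ⟨C, hC, rfl⟩)

theorem Fell.ext {E F : Fell M} (h : ∀ p, p ∈ E.1 ↔ p ∈ F.1) : E = F :=
  Subtype.ext (Set.ext h)

instance : CompactSpace (Fell M) := by
  refine compactSpace_generateFrom rfl fun P hP hc => ?_
  -- the union of the open sets `U` with `hit U ∈ P`
  let I : Set (Set M) := {U | IsOpen U ∧ Fell.hit U ∈ P}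
  have hO : IsOpen (⋃ U ∈ I, U) := isOpen_biUnion fun U hU => hU.1
  let E₀ : Fell M := ⟨(⋃ U ∈ I, U)ᶜ, hO.isClosed_compl⟩
  have h0 : E₀ ∈ ⋃₀ P := by rw [hc]; trivial
  obtain ⟨S, hSP, hS⟩ := h0
  rcases hP hSP with ⟨U, hU, rfl⟩ | ⟨C, hC, rfl⟩
  · exfalso
    obtain ⟨p, hp1, hp2⟩ := hS
    exact hp1 (Set.mem_biUnion (show U ∈ I from ⟨hU, hSP⟩) hp2)
  · have hCU : C ⊆ ⋃ U ∈ I, U := by
      intro p hp
      by_contra hn
      exact hS p hn hp
    obtain ⟨b, hbI, hbf, hb⟩ := hC.elim_finite_subcover_image (fun U hU => hU.1) hCU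
    refine ⟨insert (Fell.miss C) (Fell.hit '' b), ?_, (hbf.image _).insert _, ?_⟩
    · rintro T (rfl | ⟨U, hU, rfl⟩)
      · exact hSP
      · exact (hbI hU).2
    · refine Set.eq_univ_of_forall fun E => ?_
      by_cases hE : E ∈ Fell.miss C
      · exact ⟨_, Set.mem_insert _ _, hE⟩
      · have : ∃ p ∈ E.1, p ∈ C := by
          by_contra hn
          push Not at hn
          exact hE hn
        obtain ⟨p, hpE, hpC⟩ := this
        obtain ⟨U, hU, hpU⟩ := Set.mem_iUnion₂.1 (hb hpC)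
        exact ⟨Fell.hit U, Set.mem_insert_of_mem _ ⟨U, hU, rfl⟩, p, hpE, hpU⟩

instance [T2Space M] [LocallyCompactSpace M] : T2Space (Fell M) := by
  have key : ∀ E F : Fell M, ∀ p, p ∈ E.1 → p ∉ F.1 →
      ∃ u v : Set (Fell M), IsOpen u ∧ IsOpen v ∧ E ∈ u ∧ F ∈ v ∧ Disjoint u v := by
    intro E F p hE hF
    obtain ⟨C, hC, hCF, hCc⟩ := local_compact_nhds (F.2.isOpen_compl.mem_nhds hF)
    refine ⟨Fell.hit (interior C), Fell.miss C, Fell.isOpen_hit isOpen_interior,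
      Fell.isOpen_miss hCc, ⟨p, hE, mem_interior_iff_mem_nhds.2 hC⟩,
      fun q hq hqC => hCF hqC hq, ?_⟩
    rw [Set.disjoint_left]
    rintro E' ⟨q, hq1, hq2⟩ h
    exact h q hq1 (interior_subset hq2)
  refine ⟨fun E F hne => ?_⟩
  by_cases h : ∃ p, p ∈ E.1 ∧ p ∉ F.1
  · obtain ⟨p, h1, h2⟩ := h
    exact key E F p h1 h2
  · by_cases h' : ∃ p, p ∈ F.1 ∧ p ∉ E.1
    · obtain ⟨p, h1, h2⟩ := h'
      obtain ⟨u, v, hu, hv, hF, hE, hd⟩ := key F E p h1 h2
      exact ⟨v, u, hv, hu, hE, hF, hd.symm⟩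
    · push Not at h h'
      exact absurd (Fell.ext fun p => ⟨h p, h' p⟩) hne

/-- **Closed conditions.** Let `O` be an open set of `k`-tuples and `φ` a finite family of maps from
`k`-tuples to points. The sets `E` such that for every `k`-tuple of points of `E` in `O` one of the
points `φ j p` is in `E` form a closed set. -/
theorem Fell.isClosed_cond [LocallyCompactSpace M] (k : ℕ) (O : Set (Fin k → M)) (hO : IsOpen O)
    (J : Type) [Finite J] (φ : J → (Fin k → M) → M) (hφ : ∀ j, Continuous (φ j)) :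
    IsClosed {E : Fell M | ∀ p : Fin k → M, (∀ i, p i ∈ E.1) → p ∈ O → ∃ j, φ j p ∈ E.1} := by
  rw [← isOpen_compl_iff, isOpen_iff_forall_mem_open]
  intro E hE
  have hE' : ∃ p : Fin k → M, (∀ i, p i ∈ E.1) ∧ p ∈ O ∧ ∀ j, φ j p ∉ E.1 := by
    by_contra hn
    push Not at hn
    exact hE fun p h1 h2 => hn p h1 h2
  obtain ⟨p, hpE, hpO, hp⟩ := hE'
  have h1 : ∀ j, ∃ C : Set M, C ∈ 𝓝 (φ j p) ∧ C ⊆ E.1ᶜ ∧ IsCompact C := fun j =>
    local_compact_nhds (E.2.isOpen_compl.mem_nhds (hp j))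
  choose C hC hCE hCc using h1
  have h2 : IsOpen (O ∩ ⋂ j, φ j ⁻¹' interior (C j)) :=
    hO.inter (isOpen_iInter_of_finite fun j => isOpen_interior.preimage (hφ j))
  have h3 : p ∈ O ∩ ⋂ j, φ j ⁻¹' interior (C j) :=
    ⟨hpO, Set.mem_iInter.2 fun j => mem_interior_iff_mem_nhds.2 (hC j)⟩
  obtain ⟨U, hU, hUs⟩ := (isOpen_pi_iff'.1 h2) p h3
  refine ⟨(⋂ i, Fell.hit (U i)) ∩ Fell.miss (⋃ j, C j), ?_, ?_, ?_⟩
  · rintro F ⟨hF1, hF2⟩ hF
    have : ∀ i, ∃ q, q ∈ F.1 ∧ q ∈ U i := fun i => Set.mem_iInter.1 hF1 i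
    choose q hqF hqU using this
    have hq : q ∈ O ∩ ⋂ j, φ j ⁻¹' interior (C j) := hUs fun i _ => hqU i
    obtain ⟨j, hj⟩ := hF q hqF hq.1
    exact hF2 _ hj (Set.mem_iUnion.2 ⟨j, interior_subset (Set.mem_iInter.1 hq.2 j)⟩)
  · exact (isOpen_iInter_of_finite fun i => Fell.isOpen_hit (hU i).1).inter
      (Fell.isOpen_miss (isCompact_iUnion hCc))
  · refine ⟨Set.mem_iInter.2 fun i => ⟨p i, hpE i, (hU i).2⟩, ?_⟩
    intro q hq hqC
    obtain ⟨j, hj⟩ := Set.mem_iUnion.1 hqC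
    exact hCE j hj hq

end

section action

variable {G : Type v} [Group G] [TopologicalSpace G] [IsTopologicalGroup G]
variable {M : Type u} [TopologicalSpace M] [MulAction G M] [ContinuousSMul G M]

instance : MulAction G (Fell M) where
  smul g E := ⟨(fun p => g⁻¹ • p) ⁻¹' E.1, E.2.preimage (continuous_const_smul g⁻¹)⟩
  one_smul E := Fell.ext fun p => by
    show (1 : G)⁻¹ • p ∈ E.1 ↔ p ∈ E.1
    rw [inv_one, one_smul]
  mul_smul g h E := Fell.ext fun p => by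
    show (g * h)⁻¹ • p ∈ E.1 ↔ h⁻¹ • g⁻¹ • p ∈ E.1
    rw [mul_inv_rev, mul_smul]

omit [IsTopologicalGroup G] in
theorem Fell.mem_smul (g : G) (E : Fell M) (p : M) : p ∈ (g • E).1 ↔ g⁻¹ • p ∈ E.1 := Iff.rfl

instance [LocallyCompactSpace G] : ContinuousSMul G (Fell M) := by
  refine ⟨continuous_generateFrom_iff.2 ?_⟩
  rintro S (⟨U, hU, rfl⟩ | ⟨C, hC, rfl⟩)
  · rw [isOpen_iff_forall_mem_open]
    rintro ⟨g, E⟩ ⟨p, hp1, hp2⟩
    have hp1' : g⁻¹ • p ∈ E.1 := hp1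
    have hcont : Continuous (fun q : G × M => q.1 • q.2) := continuous_smul
    have h1 : (g, g⁻¹ • p) ∈ (fun q : G × M => q.1 • q.2) ⁻¹' U := by
      show g • g⁻¹ • p ∈ U
      rw [smul_inv_smul]; exact hp2
    obtain ⟨N, W, hN, hW, hgN, hpW, hNW⟩ := isOpen_prod_iff.1 (hU.preimage hcont) _ _ h1
    refine ⟨N ×ˢ Fell.hit W, ?_, hN.prod (Fell.isOpen_hit hW), ⟨hgN, _, hp1', hpW⟩⟩
    rintro ⟨g', E'⟩ ⟨hg', q, hq1, hq2⟩
    have h2 : g' • q ∈ U := hNW (Set.mk_mem_prod hg' hq2)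
    refine ⟨g' • q, ?_, h2⟩
    show g'⁻¹ • g' • q ∈ E'.1
    rw [inv_smul_smul]; exact hq1
  · rw [isOpen_iff_forall_mem_open]
    rintro ⟨g, E⟩ hgE
    have hcont : Continuous (fun q : G × M => q.1⁻¹ • q.2) :=
      (continuous_inv.comp continuous_fst).smul continuous_snd
    have h1 : ({g} : Set G) ×ˢ C ⊆ (fun q : G × M => q.1⁻¹ • q.2) ⁻¹' E.1ᶜ := by
      rintro ⟨g', p⟩ ⟨rfl, hp⟩ hpE
      refine hgE p ?_ hp
      exact hpE
    obtain ⟨N, W, hN, hW, hgN, hCW, hNW⟩ := generalized_tube_lemma isCompact_singleton hC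
      (E.2.isOpen_compl.preimage hcont) h1
    obtain ⟨N', hN', hN'N, hN'c⟩ := local_compact_nhds (hN.mem_nhds (hgN rfl))
    refine ⟨interior N' ×ˢ Fell.miss ((fun q : G × M => q.1⁻¹ • q.2) '' (N' ×ˢ C)), ?_,
      isOpen_interior.prod (Fell.isOpen_miss ((hN'c.prod hC).image hcont)),
      mem_interior_iff_mem_nhds.2 hN', ?_⟩
    · rintro ⟨g', E'⟩ ⟨hg', hE'⟩ p hp hpC
      exact hE' _ hp ⟨(g', p), ⟨interior_subset hg', hpC⟩, rfl⟩
    · rintro q hq ⟨⟨g', p⟩, ⟨hg', hp⟩, rfl⟩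
      exact hNW ⟨hN'N hg', hCW hp⟩ hq

end action

end Pool.Agent.BCH
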