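import Mathlib

/-!
# Hyperbolic nets in a locally compact group
-/

open Topology Set
open scoped Pointwise

namespace Pool.Agent.BCH

universe u v w

/-- A HYPERBOLIC NET in the topological group `G`: a nonempty closed subset `carrier` of `G`, separated
(`a⁻¹ b ∈ V` only for `a = b`), with an integer valued metric `dist` on it which is `δ`-hyperbolic (four
point condition), bounded in terms of `a⁻¹ b` (`dist a b ≤ n` if `a⁻¹ b ∈ U n`) and of exponential growth
(a ball of radius `R` has at most `B ^ (R + 1)` points). (`dist a b = 0` off the carrier.) -/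
structure HypNet (G : Type u) [Group G] [TopologicalSpace G] (V : Set G) (U : ℕ → Set G)
    (B δ : ℕ) where
  carrier : Set G
  dist : G → G → ℕ
  nonempty : carrier.Nonempty
  closed : IsClosed carrier
  sep : ∀ a ∈ carrier, ∀ b ∈ carrier, a⁻¹ * b ∈ V → a = b
  self : ∀ a ∈ carrier, dist a a = 0
  eq : ∀ a ∈ carrier, ∀ b ∈ carrier, dist a b = 0 → a = b
  symm : ∀ a ∈ carrier, ∀ b ∈ carrier, dist a b = dist b a
  tri : ∀ a ∈ carrier, ∀ b ∈ carrier, ∀ c ∈ carrier, dist a c ≤ dist a b + dist b c
  hyp : ∀ o ∈ carrier, ∀ a ∈ carrier, ∀ b ∈ carrier, ∀ c ∈ carrier,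
    dist a b + dist o c ≤ max (dist a c + dist o b) (dist b c + dist o a) + 2 * δ
  bdd : ∀ a ∈ carrier, ∀ b ∈ carrier, ∀ n, a⁻¹ * b ∈ U n → dist a b ≤ n
  count : ∀ a ∈ carrier, ∀ (R : ℕ) (t : Finset G), (∀ p ∈ t, p ∈ carrier ∧ dist a p ≤ R) →
    t.card ≤ B ^ (R + 1)
  off : ∀ a b, ¬ (a ∈ carrier ∧ b ∈ carrier) → dist a b = 0

namespace HypNet

variable {G : Type u} [Group G] [TopologicalSpace G]
variable {V : Set G} {U : ℕ → Set G} {B δ : ℕ}

/-- The set of the triples `(a, b, dist a b)`. -/
def graphSet (x : HypNet G V U B δ) : Set (G × G × ℕ) :=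
  {p | p.1 ∈ x.carrier ∧ p.2.1 ∈ x.carrier ∧ x.dist p.1 p.2.1 = p.2.2}

/-- The topology of the space of nets: generated by the sets of those nets whose set of triples meets
`O`, for `O ⊆ G × G × ℕ` open, and the sets of those nets whose set of triples does not meet `C`, for
`C ⊆ G × G × ℕ` compact. -/
instance : TopologicalSpace (HypNet G V U B δ) :=
  TopologicalSpace.generateFrom
    ({S | ∃ O : Set (G × G × ℕ), IsOpen O ∧ S = {x | (x.graphSet ∩ O).Nonempty}} ∪
      {S | ∃ C : Set (G × G × ℕ), IsCompact C ∧ S = {x | ∀ p ∈ x.graphSet, p ∉ C}})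

variable [IsTopologicalGroup G]

omit [IsTopologicalGroup G] in
theorem ext' {x y : HypNet G V U B δ} (h1 : x.carrier = y.carrier)
    (h2 : ∀ a ∈ x.carrier, ∀ b ∈ x.carrier, x.dist a b = y.dist a b) : x = y := by
  have h3 : x.dist = y.dist := by
    funext a b
    by_cases h : a ∈ x.carrier ∧ b ∈ x.carrier
    · exact h2 a h.1 b h.2
    · rw [x.off a b h, y.off a b (by rw [← h1]; exact h)]
  cases x; cases y
  simp only at h1 h3
  subst h1 h3
  rfl

/-- The group `G` acts on the nets by left translation. -/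
instance : MulAction G (HypNet G V U B δ) where
  smul g x :=
    { carrier := {a | g⁻¹ * a ∈ x.carrier}
      dist := fun a b => x.dist (g⁻¹ * a) (g⁻¹ * b)
      nonempty := by
        obtain ⟨a, ha⟩ := x.nonempty
        exact ⟨g * a, by simpa using ha⟩
      closed := x.closed.preimage (continuous_const_mul g⁻¹)
      sep := fun a ha b hb h => by
        have := x.sep _ ha _ hb (by simpa [mul_assoc] using h)
        exact mul_left_cancel this
      self := fun a ha => x.self _ ha
      symm := fun a ha b hb => x.symm _ ha _ hb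
      tri := fun a ha b hb c hc => x.tri _ ha _ hb _ hc
      hyp := fun o ho a ha b hb c hc => x.hyp _ ho _ ha _ hb _ hc
      eq := fun a ha b hb h => mul_left_cancel (x.eq _ ha _ hb h)
      bdd := fun a ha b hb n h => x.bdd _ ha _ hb n (by simpa [mul_assoc] using h)
      count := fun a ha R t ht => by
        classical
        have h := x.count _ ha R (t.image fun p => g⁻¹ * p) (fun q hq => by
          obtain ⟨p, hp, rfl⟩ := Finset.mem_image.1 hq
          exact ht p hp)
        rwa [Finset.card_image_of_injective _ (mul_right_injective g⁻¹)] at h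
      off := fun a b h => x.off _ _ h }
  one_smul x := by
    refine ext' (Set.ext fun a => ?_) fun a _ b _ => ?_
    · show (1 : G)⁻¹ * a ∈ x.carrier ↔ a ∈ x.carrier
      simp
    · show x.dist ((1 : G)⁻¹ * a) ((1 : G)⁻¹ * b) = x.dist a b
      simp
  mul_smul g h x := by
    refine ext' (Set.ext fun a => ?_) fun a _ b _ => ?_
    · show (g * h)⁻¹ * a ∈ x.carrier ↔ h⁻¹ * (g⁻¹ * a) ∈ x.carrier
      simp [mul_assoc]
    · show x.dist ((g * h)⁻¹ * a) ((g * h)⁻¹ * b) = x.dist (h⁻¹ * (g⁻¹ * a)) (h⁻¹ * (g⁻¹ * b))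
      simp [mul_assoc]

theorem mem_smul (g : G) (x : HypNet G V U B δ) (a : G) :
    a ∈ (g • x).carrier ↔ g⁻¹ * a ∈ x.carrier := Iff.rfl

theorem dist_smul (g : G) (x : HypNet G V U B δ) (a b : G) :
    (g • x).dist a b = x.dist (g⁻¹ * a) (g⁻¹ * b) := rfl

end HypNet

/-- `G` acts on `G × G × ℕ` by `g (a, b, n) = (g a, g b, n)`. -/
def Tri (G : Type u) : Type u := G × G × ℕ

section Tri

variable {G : Type u} [Group G] [TopologicalSpace G] [IsTopologicalGroup G]

instance : TopologicalSpace (Tri G) := inferInstanceAs (TopologicalSpace (G × G × ℕ))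
instance [T2Space G] : T2Space (Tri G) := inferInstanceAs (T2Space (G × G × ℕ))
instance [LocallyCompactSpace G] : LocallyCompactSpace (Tri G) :=
  inferInstanceAs (LocallyCompactSpace (G × G × ℕ))

instance : MulAction G (Tri G) where
  smul g p := (g * p.1, g * p.2.1, p.2.2)
  one_smul p := by
    show (1 * p.1, 1 * p.2.1, p.2.2) = p
    simp
  mul_smul g h p := by
    show (g * h * p.1, g * h * p.2.1, p.2.2) = (g * (h * p.1), g * (h * p.2.1), p.2.2)
    simp [mul_assoc]

omit [TopologicalSpace G] [IsTopologicalGroup G] in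
theorem Tri.smul_def (g : G) (p : Tri G) : g • p = ((g * p.1, g * p.2.1, p.2.2) : G × G × ℕ) := rfl

omit [Group G] [IsTopologicalGroup G] in
theorem Tri.continuous_fst : Continuous (fun p : Tri G => p.1) := _root_.continuous_fst
omit [Group G] [IsTopologicalGroup G] in
theorem Tri.continuous_snd : Continuous (fun p : Tri G => p.2.1) :=
  _root_.continuous_fst.comp _root_.continuous_snd
omit [Group G] [IsTopologicalGroup G] in
theorem Tri.continuous_num : Continuous (fun p : Tri G => p.2.2) :=
  _root_.continuous_snd.comp _root_.continuous_snd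

instance : ContinuousSMul G (Tri G) := by
  refine ⟨?_⟩
  show Continuous (fun q : G × (G × G × ℕ) => (q.1 * q.2.1, q.1 * q.2.2.1, q.2.2.2))
  fun_prop

end Tri

namespace HypNet

variable {G : Type u} [Group G] [TopologicalSpace G] [IsTopologicalGroup G]
variable {V : Set G} {U : ℕ → Set G} {B δ : ℕ}


theorem isClosed_graphSet (hV : IsOpen V) (h1 : (1 : G) ∈ V) (x : HypNet G V U B δ) :
    IsClosed (X := Tri G) x.graphSet := by
  refine isClosed_of_closure_subset fun p hp => ?_
  have ha : p.1 ∈ x.carrier := by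
    have : closure (X := Tri G) x.graphSet ⊆ {p : Tri G | p.1 ∈ x.carrier} :=
      closure_minimal (fun q hq => hq.1) (x.closed.preimage Tri.continuous_fst)
    exact this hp
  have hb : p.2.1 ∈ x.carrier := by
    have : closure (X := Tri G) x.graphSet ⊆ {p : Tri G | p.2.1 ∈ x.carrier} :=
      closure_minimal (fun q hq => hq.2.1) (x.closed.preimage Tri.continuous_snd)
    exact this hp
  have hO : IsOpen {q : Tri G | p.1⁻¹ * q.1 ∈ V ∧ p.2.1⁻¹ * q.2.1 ∈ V ∧ q.2.2 = p.2.2} := by
    refine (hV.preimage (Tri.continuous_fst.const_mul _)).inter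
      ((hV.preimage (Tri.continuous_snd.const_mul _)).inter ?_)
    exact (isOpen_discrete ({p.2.2} : Set ℕ)).preimage Tri.continuous_num
  obtain ⟨q, ⟨hq1, hq2, hq3⟩, hq4, hq5, hq6⟩ := mem_closure_iff.1 hp _ hO
    ⟨by simpa using h1, by simpa using h1, rfl⟩
  refine ⟨ha, hb, ?_⟩
  rw [x.sep _ ha _ hq4 hq1, x.sep _ hb _ hq5 hq2, hq6, hq3]

end HypNet

end Pool.Agent.BCH
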