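import Pool.Agent.Lib.MP_aa9b81_an.HN.N1
import Pool.Agent.Lib.MP_aa9b81_an.HN.N2

/-!
# The space of hyperbolic nets is a locally compact Hausdorff `G`-space
-/

open Topology Set
open scoped Pointwise

namespace Pool.Agent.BCH

universe u v w

namespace HypNet

variable {G : Type u} [Group G] [TopologicalSpace G] [IsTopologicalGroup G]
variable {V : Set G} {U : ℕ → Set G} {B δ : ℕ}

/-- The set of triples of a net, as a closed set. -/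
def graph (hV : IsOpen V) (h1 : (1 : G) ∈ V) (x : HypNet G V U B δ) : Fell (Tri G) :=
  ⟨x.graphSet, isClosed_graphSet hV h1 x⟩

theorem mem_graph {hV : IsOpen V} {h1 : (1 : G) ∈ V} {x : HypNet G V U B δ} {a b : G} {n : ℕ} :
    ((a, b, n) : G × G × ℕ) ∈ (graph hV h1 x).1 ↔
      a ∈ x.carrier ∧ b ∈ x.carrier ∧ x.dist a b = n := Iff.rfl

theorem isInducing_graph (hV : IsOpen V) (h1 : (1 : G) ∈ V) :
    IsInducing (graph hV h1 : HypNet G V U B δ → Fell (Tri G)) := by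
  refine ⟨?_⟩
  show TopologicalSpace.generateFrom _ = TopologicalSpace.induced _ (TopologicalSpace.generateFrom _)
  rw [induced_generateFrom_eq]
  congr 1
  ext S
  constructor
  · rintro (⟨O, hO, rfl⟩ | ⟨C, hC, rfl⟩)
    · exact ⟨Fell.hit O, Or.inl ⟨O, hO, rfl⟩, rfl⟩
    · exact ⟨Fell.miss C, Or.inr ⟨C, hC, rfl⟩, rfl⟩
  · rintro ⟨T, ⟨O, hO, rfl⟩ | ⟨C, hC, rfl⟩, rfl⟩
    · exact Or.inl ⟨O, hO, rfl⟩
    · exact Or.inr ⟨C, hC, rfl⟩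

theorem injective_graph (hV : IsOpen V) (h1 : (1 : G) ∈ V) :
    Function.Injective (graph hV h1 : HypNet G V U B δ → Fell (Tri G)) := by
  intro x y h
  have h2 : ∀ a b n, (a ∈ x.carrier ∧ b ∈ x.carrier ∧ x.dist a b = n) ↔
      (a ∈ y.carrier ∧ b ∈ y.carrier ∧ y.dist a b = n) := by
    intro a b n
    rw [← mem_graph (hV := hV) (h1 := h1), ← mem_graph (hV := hV) (h1 := h1), h]
  refine ext' (Set.ext fun a => ?_) fun a ha b hb => ?_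
  · constructor
    · intro ha
      exact ((h2 a a 0).1 ⟨ha, ha, x.self a ha⟩).1
    · intro ha
      exact ((h2 a a 0).2 ⟨ha, ha, y.self a ha⟩).1
  · exact ((h2 a b _).1 ⟨ha, hb, rfl⟩).2.2.symm

theorem t2Space [T2Space G] [LocallyCompactSpace G] (hV : IsOpen V) (h1 : (1 : G) ∈ V) :
    T2Space (HypNet G V U B δ) :=
  T2Space.of_injective_continuous (injective_graph hV h1) (isInducing_graph hV h1).continuous

theorem graph_smul (hV : IsOpen V) (h1 : (1 : G) ∈ V) (g : G) (x : HypNet G V U B δ) :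
    graph hV h1 (g • x) = g • graph hV h1 x := Fell.ext fun _ => Iff.rfl

theorem continuousSMul [LocallyCompactSpace G] (hV : IsOpen V) (h1 : (1 : G) ∈ V) :
    ContinuousSMul G (HypNet G V U B δ) :=
  (isInducing_graph hV h1).continuousSMul (f := id) continuous_id (fun {g x} => graph_smul hV h1 g x)

/-- The conditions satisfied by the set of triples of a net. -/
structure Cond (V : Set G) (U : ℕ → Set G) (B δ : ℕ) (E : Set (Tri G)) : Prop where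
  refl : ∀ p ∈ E, ((p.1, p.1, 0) : G × G × ℕ) ∈ E
  symm : ∀ p ∈ E, ((p.2.1, p.1, p.2.2) : G × G × ℕ) ∈ E
  total : ∀ m, ∀ p ∈ E, ∀ q ∈ E, p.1⁻¹ * q.1 ∈ U m →
    ∃ n < m + 1, ((p.1, q.1, n) : G × G × ℕ) ∈ E
  sep : ∀ p ∈ E, p.1⁻¹ * p.2.1 ∈ V → p.2.2 = 0
  uniq : ∀ p ∈ E, ∀ q ∈ E, p.1⁻¹ * q.1 ∈ V → p.2.1⁻¹ * q.2.1 ∈ V → p.2.2 = q.2.2
  eq : ∀ p ∈ E, p.2.2 = 0 → p.1 = p.2.1
  bdd : ∀ m, ∀ p ∈ E, p.1⁻¹ * p.2.1 ∈ U m → p.2.2 ≤ m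
  count : ∀ R, ∀ p : Fin (B ^ (R + 1) + 1) → Tri G, (∀ i, p i ∈ E) →
    (∀ i, (p 0).1⁻¹ * (p i).1 ∈ V) → (∀ i, (p i).2.2 ≤ R) →
    ¬ ∀ i j, i ≠ j → (p i).2.1 ≠ (p j).2.1
  tri : ∀ p ∈ E, ∀ q ∈ E, ∀ r ∈ E, p.2.1⁻¹ * q.1 ∈ V → q.2.1⁻¹ * r.2.1 ∈ V → p.1⁻¹ * r.1 ∈ V →
    r.2.2 ≤ p.2.2 + q.2.2
  hyp : ∀ ab ∈ E, ∀ oc ∈ E, ∀ ac ∈ E, ∀ ob ∈ E, ∀ bc ∈ E, ∀ oa ∈ E,
    ab.1⁻¹ * ac.1 ∈ V → ab.1⁻¹ * oa.2.1 ∈ V → ab.2.1⁻¹ * ob.2.1 ∈ V → ab.2.1⁻¹ * bc.1 ∈ V →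
    oc.1⁻¹ * ob.1 ∈ V → oc.1⁻¹ * oa.1 ∈ V → oc.2.1⁻¹ * ac.2.1 ∈ V → oc.2.1⁻¹ * bc.2.1 ∈ V →
    ab.2.2 + oc.2.2 ≤ max (ac.2.2 + ob.2.2) (bc.2.2 + oa.2.2) + 2 * δ

theorem cond_graph (hV : IsOpen V) (h1 : (1 : G) ∈ V) (x : HypNet G V U B δ) :
    Cond V U B δ (graph hV h1 x).1 where
  refl := by
    rintro ⟨a, b, n⟩ ⟨ha, hb, hn⟩
    exact ⟨ha, ha, x.self a ha⟩
  symm := by
    rintro ⟨a, b, n⟩ ⟨ha, hb, hn⟩
    exact ⟨hb, ha, (x.symm b hb a ha).trans hn⟩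
  total := by
    rintro m ⟨a, a', n⟩ ⟨ha, ha', hn⟩ ⟨b, b', n'⟩ ⟨hb, hb', hn'⟩ h
    exact ⟨x.dist a b, Nat.lt_succ_of_le (x.bdd a ha b hb m h), ha, hb, rfl⟩
  sep := by
    rintro ⟨a, b, n⟩ ⟨ha, hb, hn⟩ h
    have hab : a = b := x.sep a ha b hb h
    subst hab
    exact hn.symm.trans (x.self a ha)
  uniq := by
    rintro ⟨a, b, n⟩ ⟨ha, hb, hn⟩ ⟨a', b', n'⟩ ⟨ha', hb', hn'⟩ h h'
    have e1 : a = a' := x.sep a ha a' ha' h
    have e2 : b = b' := x.sep b hb b' hb' h'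
    subst e1 e2
    exact hn.symm.trans hn'
  eq := by
    rintro ⟨a, b, n⟩ ⟨ha, hb, hn⟩ h
    exact x.eq a ha b hb (hn.trans h)
  bdd := by
    rintro m ⟨a, b, n⟩ ⟨ha, hb, hn⟩ h
    have hn' : x.dist a b = n := hn
    subst hn'
    exact x.bdd a ha b hb m h
  count := by
    classical
    intro R p hp hpV hpR hne
    have hinj : Function.Injective fun i => (p i).2.1 := by
      intro i j hij
      by_contra h
      exact hne i j h hij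
    have ha : (p 0).1 ∈ x.carrier := (hp 0).1
    have h := x.count (p 0).1 ha R (Finset.univ.image fun i => (p i).2.1) (fun q hq => by
      obtain ⟨i, -, rfl⟩ := Finset.mem_image.1 hq
      obtain ⟨h2, h3, h4⟩ := hp i
      refine ⟨h3, ?_⟩
      have h5 : (p 0).1 = (p i).1 := x.sep _ ha _ h2 (hpV i)
      rw [h5]
      exact h4.le.trans (hpR i))
    rw [Finset.card_image_of_injective _ hinj, Finset.card_univ, Fintype.card_fin] at h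
    omega
  tri := by
    rintro ⟨a, b, n⟩ ⟨ha, hb, hn⟩ ⟨b', c, n'⟩ ⟨hb', hc, hn'⟩ ⟨a', c', n''⟩ ⟨ha', hc', hn''⟩ h h' h''
    have e1 : b = b' := x.sep b hb b' hb' h
    have e2 : c = c' := x.sep c hc c' hc' h'
    have e3 : a = a' := x.sep a ha a' ha' h''
    subst e1 e2 e3
    have f1 : x.dist a b = n := hn
    have f2 : x.dist b c = n' := hn'
    have f3 : x.dist a c = n'' := hn''
    subst f1 f2 f3
    exact x.tri a ha b hb c hc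
  hyp := by
    rintro ⟨a, b, n1⟩ ⟨ha, hb, h1⟩ ⟨o, c, n2⟩ ⟨ho, hc, h2⟩ ⟨a3, c3, n3⟩ ⟨ha3, hc3, h3⟩
      ⟨o4, b4, n4⟩ ⟨ho4, hb4, h4⟩ ⟨b5, c5, n5⟩ ⟨hb5, hc5, h5⟩ ⟨o6, a6, n6⟩ ⟨ho6, ha6, h6⟩
      k1 k2 k3 k4 k5 k6 k7 k8
    have e1 : a = a3 := x.sep a ha a3 ha3 k1
    have e2 : a = a6 := x.sep a ha a6 ha6 k2
    have e3 : b = b4 := x.sep b hb b4 hb4 k3
    have e4 : b = b5 := x.sep b hb b5 hb5 k4
    have e5 : o = o4 := x.sep o ho o4 ho4 k5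
    have e6 : o = o6 := x.sep o ho o6 ho6 k6
    have e7 : c = c3 := x.sep c hc c3 hc3 k7
    have e8 : c = c5 := x.sep c hc c5 hc5 k8
    subst e1 e2 e3 e4 e5 e6 e7 e8
    have f1 : x.dist a b = n1 := h1
    have f2 : x.dist o c = n2 := h2
    have f3 : x.dist a c = n3 := h3
    have f4 : x.dist o b = n4 := h4
    have f5 : x.dist b c = n5 := h5
    have f6 : x.dist o a = n6 := h6
    subst f1 f2 f3 f4 f5 f6
    exact x.hyp o ho a ha b hb c hc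

end HypNet

end Pool.Agent.BCH
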