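import Pool.Agent.Lib.MP_aa9b81_an.HN.N3

/-!
# The space of hyperbolic nets is locally compact
-/

open Topology Set
open scoped Pointwise

namespace Pool.Agent.BCH

universe u v w

namespace HypNet

variable {G : Type u} [Group G] [TopologicalSpace G] [IsTopologicalGroup G]
variable {V : Set G} {U : ℕ → Set G} {B δ : ℕ}

omit [IsTopologicalGroup G] in
/-- A nonempty closed set of triples satisfying the conditions is the set of triples of a net. -/
theorem exists_net (h1 : (1 : G) ∈ V) (hU : ∀ g : G, ∃ n, g ∈ U n)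
    (E : Fell (Tri G)) (hE : Cond V U B δ E.1) (hne : E.1.Nonempty) :
    ∃ x : HypNet G V U B δ, ∀ a b n, (a ∈ x.carrier ∧ b ∈ x.carrier ∧ x.dist a b = n) ↔
      ((a, b, n) : G × G × ℕ) ∈ E.1 := by
  classical
  let D : Set G := {a | ((a, a, 0) : G × G × ℕ) ∈ E.1}
  have hD1 : ∀ {a b : G} {n : ℕ}, ((a, b, n) : G × G × ℕ) ∈ E.1 → a ∈ D :=
    fun {a b n} h => hE.refl (a, b, n) h
  have hD2 : ∀ {a b : G} {n : ℕ}, ((a, b, n) : G × G × ℕ) ∈ E.1 → b ∈ D :=
    fun {a b n} h => hD1 (hE.symm (a, b, n) h)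
  have htot : ∀ a ∈ D, ∀ b ∈ D, ∃ n, ((a, b, n) : G × G × ℕ) ∈ E.1 := by
    intro a ha b hb
    obtain ⟨m, hm⟩ := hU (a⁻¹ * b)
    obtain ⟨n, -, hn⟩ := hE.total m (a, a, 0) ha (b, b, 0) hb hm
    exact ⟨n, hn⟩
  have huniq : ∀ {a b : G} {n m : ℕ}, ((a, b, n) : G × G × ℕ) ∈ E.1 →
      ((a, b, m) : G × G × ℕ) ∈ E.1 → n = m := by
    intro a b n m h h'
    exact hE.uniq (a, b, n) h (a, b, m) h' (by simpa using h1) (by simpa using h1)
  let d : G → G → ℕ := fun a b => if h : ∃ n, ((a, b, n) : G × G × ℕ) ∈ E.1 then h.choose else 0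
  have hd : ∀ {a b : G} {n : ℕ}, ((a, b, n) : G × G × ℕ) ∈ E.1 → d a b = n := by
    intro a b n h
    have h' : ∃ n, ((a, b, n) : G × G × ℕ) ∈ E.1 := ⟨n, h⟩
    show (if h : ∃ n, ((a, b, n) : G × G × ℕ) ∈ E.1 then h.choose else 0) = n
    rw [dif_pos h']
    exact huniq h'.choose_spec h
  have hd' : ∀ a ∈ D, ∀ b ∈ D, ((a, b, d a b) : G × G × ℕ) ∈ E.1 := by
    intro a ha b hb
    obtain ⟨n, hn⟩ := htot a ha b hb
    rw [hd hn]; exact hn
  refine ⟨⟨D, d, ?_, ?_, ?_, ?_, ?_, ?_, ?_, ?_, ?_, ?_, ?_⟩, ?_⟩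
  · obtain ⟨⟨a, b, n⟩, h⟩ := hne
    exact ⟨a, hD1 h⟩
  · have : Continuous (fun a : G => ((a, a, 0) : G × G × ℕ)) := by fun_prop
    exact E.2.preimage (X := G) (Y := Tri G) this
  · intro a ha b hb hab
    have h2 := hd' a ha b hb
    have h3 : d a b = 0 := hE.sep (a, b, d a b) h2 hab
    exact hE.eq (a, b, d a b) h2 h3
  · intro a ha
    exact hd ha
  · intro a ha b hb h3
    exact hE.eq (a, b, d a b) (hd' a ha b hb) h3
  · intro a ha b hb
    exact (hd (hE.symm (a, b, d a b) (hd' a ha b hb))).symm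
  · intro a ha b hb c hc
    exact hE.tri (a, b, d a b) (hd' a ha b hb) (b, c, d b c) (hd' b hb c hc) (a, c, d a c)
      (hd' a ha c hc) (by simpa using h1) (by simpa using h1) (by simpa using h1)
  · intro o ho a ha b hb c hc
    exact hE.hyp (a, b, d a b) (hd' a ha b hb) (o, c, d o c) (hd' o ho c hc)
      (a, c, d a c) (hd' a ha c hc) (o, b, d o b) (hd' o ho b hb)
      (b, c, d b c) (hd' b hb c hc) (o, a, d o a) (hd' o ho a ha)
      (by simpa using h1) (by simpa using h1) (by simpa using h1) (by simpa using h1)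
      (by simpa using h1) (by simpa using h1) (by simpa using h1) (by simpa using h1)
  · intro a ha b hb n hn
    exact hE.bdd n (a, b, d a b) (hd' a ha b hb) hn
  · intro a ha R t ht
    by_contra hlt
    push Not at hlt
    obtain ⟨t', ht', hcard⟩ := Finset.exists_subset_card_eq (show B ^ (R + 1) + 1 ≤ t.card from hlt)
    let f := t'.equivFinOfCardEq hcard
    have hmem : ∀ i, ((f.symm i : G) ∈ D ∧ d a (f.symm i) ≤ R) := fun i =>
      ht _ (ht' (f.symm i).2)
    refine hE.count R (fun i => ((a, (f.symm i : G), d a (f.symm i)) : G × G × ℕ))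
      (fun i => hd' a ha _ (hmem i).1) (fun i => by simpa using h1) (fun i => (hmem i).2) ?_
    intro i j hij h
    exact hij (f.symm.injective (Subtype.ext h))
  · intro a b hab
    show (if h : ∃ n, ((a, b, n) : G × G × ℕ) ∈ E.1 then h.choose else 0) = 0
    rw [dif_neg]
    rintro ⟨n, hn⟩
    exact hab ⟨hD1 hn, hD2 hn⟩
  · intro a b n
    constructor
    · rintro ⟨ha, hb, hn⟩
      have hn' : d a b = n := hn
      rw [← hn']
      exact hd' a ha b hb
    · intro h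
      exact ⟨hD1 h, hD2 h, hd h⟩

theorem range_graph (hV : IsOpen V) (h1 : (1 : G) ∈ V)
    (hU : ∀ g : G, ∃ n, g ∈ U n) :
    range (graph hV h1 : HypNet G V U B δ → Fell (Tri G)) =
      {E | Cond V U B δ E.1} ∩ Fell.hit univ := by
  ext E
  constructor
  · rintro ⟨x, rfl⟩
    refine ⟨cond_graph hV h1 x, ?_⟩
    obtain ⟨a, ha⟩ := x.nonempty
    exact ⟨((a, a, 0) : G × G × ℕ), ⟨ha, ha, x.self a ha⟩, trivial⟩
  · rintro ⟨hE, hne⟩
    obtain ⟨x, hx⟩ := exists_net h1 hU E hE (by simpa [Fell.hit] using hne)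
    exact ⟨x, Fell.ext fun p => hx p.1 p.2.1 p.2.2⟩

end HypNet

end Pool.Agent.BCH
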