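import Pool.Agent.Lib.MP_aa9b81_an.HN.N4

/-!
# The conditions on the set of triples of a net are closed
-/

open Topology Set
open scoped Pointwise

namespace Pool.Agent.BCH

universe u v w

section general

variable {M : Type u} [TopologicalSpace M] [LocallyCompactSpace M]

theorem Fell.isClosed_cond1 (O : Set M) (hO : IsOpen O) (J : Type) [Finite J] (φ : J → M → M)
    (hφ : ∀ j, Continuous (φ j)) :
    IsClosed {E : Fell M | ∀ p ∈ E.1, p ∈ O → ∃ j, φ j p ∈ E.1} := by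
  have h := Fell.isClosed_cond 1 {p : Fin 1 → M | p 0 ∈ O} (hO.preimage (continuous_apply 0)) J
    (fun j p => φ j (p 0)) (fun j => (hφ j).comp (continuous_apply 0))
  refine (congrArg IsClosed ?_).mp h
  ext E
  constructor
  · intro hE p hp hpO
    exact hE (fun _ => p) (fun _ => hp) hpO
  · intro hE p hp hpO
    exact hE (p 0) (hp 0) hpO

theorem Fell.isClosed_cond2 (O : Set (M × M)) (hO : IsOpen O) (J : Type) [Finite J]
    (φ : J → M × M → M) (hφ : ∀ j, Continuous (φ j)) :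
    IsClosed {E : Fell M | ∀ p ∈ E.1, ∀ q ∈ E.1, (p, q) ∈ O → ∃ j, φ j (p, q) ∈ E.1} := by
  have hc : Continuous (fun p : Fin 2 → M => (p 0, p 1)) := by fun_prop
  have h := Fell.isClosed_cond 2 {p : Fin 2 → M | (p 0, p 1) ∈ O} (hO.preimage hc) J
    (fun j p => φ j (p 0, p 1)) (fun j => (hφ j).comp hc)
  refine (congrArg IsClosed ?_).mp h
  ext E
  constructor
  · intro hE p hp q hq hpO
    refine hE ![p, q] ?_ hpO
    intro i
    fin_cases i
    · exact hp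
    · exact hq
  · intro hE p hp hpO
    exact hE (p 0) (hp 0) (p 1) (hp 1) hpO

theorem Fell.isClosed_cond3 (O : Set (M × M × M)) (hO : IsOpen O) :
    IsClosed {E : Fell M | ∀ p ∈ E.1, ∀ q ∈ E.1, ∀ r ∈ E.1, (p, q, r) ∉ O} := by
  have hc : Continuous (fun p : Fin 3 → M => (p 0, p 1, p 2)) := by fun_prop
  have h := Fell.isClosed_cond 3 {p : Fin 3 → M | (p 0, p 1, p 2) ∈ O} (hO.preimage hc) Empty
    (fun j => j.elim) (fun j => j.elim)
  refine (congrArg IsClosed ?_).mp h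
  ext E
  constructor
  · intro hE p hp q hq r hr hpO
    obtain ⟨j, -⟩ := hE ![p, q, r] (fun i => by fin_cases i <;> assumption) hpO
    exact j.elim
  · intro hE p hp hpO
    exact absurd hpO (hE (p 0) (hp 0) (p 1) (hp 1) (p 2) (hp 2))

theorem Fell.isClosed_cond6 (O : Set (M × M × M × M × M × M)) (hO : IsOpen O) :
    IsClosed {E : Fell M | ∀ p ∈ E.1, ∀ q ∈ E.1, ∀ r ∈ E.1, ∀ s ∈ E.1, ∀ t ∈ E.1, ∀ u ∈ E.1,
      (p, q, r, s, t, u) ∉ O} := by
  have hc : Continuous (fun p : Fin 6 → M => (p 0, p 1, p 2, p 3, p 4, p 5)) := by fun_prop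
  have h := Fell.isClosed_cond 6 {p : Fin 6 → M | (p 0, p 1, p 2, p 3, p 4, p 5) ∈ O}
    (hO.preimage hc) Empty (fun j => j.elim) (fun j => j.elim)
  refine (congrArg IsClosed ?_).mp h
  ext E
  constructor
  · intro hE p hp q hq r hr s hs t ht u hu hpO
    obtain ⟨j, -⟩ := hE ![p, q, r, s, t, u] (fun i => by fin_cases i <;> assumption) hpO
    exact j.elim
  · intro hE p hp hpO
    exact absurd hpO (hE (p 0) (hp 0) (p 1) (hp 1) (p 2) (hp 2) (p 3) (hp 3) (p 4) (hp 4)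
      (p 5) (hp 5))

end general

namespace HypNet

variable {G : Type u} [Group G] [TopologicalSpace G] [IsTopologicalGroup G]
variable {V : Set G} {U : ℕ → Set G} {B δ : ℕ}

theorem isClosed_cond [LocallyCompactSpace G] [T2Space G] (hV : IsOpen V)
    (hUo : ∀ n, IsOpen (U n)) :
    IsClosed {E : Fell (Tri G) | Cond V U B δ E.1} := by
  have e1 : Continuous (fun p : Tri G => p.1) := Tri.continuous_fst
  have e2 : Continuous (fun p : Tri G => p.2.1) := Tri.continuous_snd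
  have e3 : Continuous (fun p : Tri G => p.2.2) := Tri.continuous_num
  have e12 : Continuous (fun p : Tri G => p.1⁻¹ * p.2.1) := e1.inv.mul e2
  have hnum : ∀ {Z : Type u} [TopologicalSpace Z] (P : ℕ → Prop) (f : Z → ℕ), Continuous f →
      IsOpen {z | P (f z)} := fun P f hf => (isOpen_discrete {n | P n}).preimage hf
  -- refl
  have c1 : IsClosed {E : Fell (Tri G) | ∀ p ∈ E.1, ((p.1, p.1, 0) : G × G × ℕ) ∈ E.1} := by
    have h := Fell.isClosed_cond1 (M := Tri G) univ isOpen_univ Unit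
      (fun _ p => ((p.1, p.1, 0) : G × G × ℕ)) (fun _ => e1.prodMk (e1.prodMk continuous_const))
    refine (congrArg IsClosed ?_).mp h
    ext E
    exact ⟨fun hE p hp => (hE p hp trivial).elim fun _ h => h, fun hE p hp _ => ⟨(), hE p hp⟩⟩
  -- symm
  have c2 : IsClosed {E : Fell (Tri G) | ∀ p ∈ E.1, ((p.2.1, p.1, p.2.2) : G × G × ℕ) ∈ E.1} := by
    have h := Fell.isClosed_cond1 (M := Tri G) univ isOpen_univ Unit
      (fun _ p => ((p.2.1, p.1, p.2.2) : G × G × ℕ)) (fun _ => e2.prodMk (e1.prodMk e3))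
    refine (congrArg IsClosed ?_).mp h
    ext E
    exact ⟨fun hE p hp => (hE p hp trivial).elim fun _ h => h, fun hE p hp _ => ⟨(), hE p hp⟩⟩
  -- total
  have c3 : ∀ m, IsClosed {E : Fell (Tri G) | ∀ p ∈ E.1, ∀ q ∈ E.1,
      p.1⁻¹ * q.1 ∈ U m → ∃ n < m + 1, ((p.1, q.1, n) : G × G × ℕ) ∈ E.1} := by
    intro m
    have hO : IsOpen {z : Tri G × Tri G | z.1.1⁻¹ * z.2.1 ∈ U m} :=
      (hUo m).preimage ((e1.comp continuous_fst).inv.mul (e1.comp continuous_snd))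
    have h := Fell.isClosed_cond2 (M := Tri G) _ hO (Fin (m + 1))
      (fun j z => ((z.1.1, z.2.1, (j : ℕ)) : G × G × ℕ))
      (fun j => (e1.comp continuous_fst).prodMk ((e1.comp continuous_snd).prodMk continuous_const))
    refine (congrArg IsClosed ?_).mp h
    ext E
    constructor
    · intro hE p hp q hq hpq
      obtain ⟨j, hj⟩ := hE p hp q hq hpq
      exact ⟨j, j.2, hj⟩
    · intro hE p hp q hq hpq
      obtain ⟨n, hn, hj⟩ := hE p hp q hq hpq
      exact ⟨⟨n, hn⟩, hj⟩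
  have cno : ∀ O : Set (Tri G), IsOpen O → IsClosed {E : Fell (Tri G) | ∀ p ∈ E.1, p ∉ O} := by
    intro O hO
    have h := Fell.isClosed_cond1 (M := Tri G) O hO Empty (fun j => j.elim) (fun j => j.elim)
    refine (congrArg IsClosed ?_).mp h
    ext E
    exact ⟨fun hE p hp hpO => (hE p hp hpO).choose.elim, fun hE p hp hpO => absurd hpO (hE p hp)⟩
  -- sep
  have c4 : IsClosed {E : Fell (Tri G) | ∀ p ∈ E.1, p.1⁻¹ * p.2.1 ∈ V → p.2.2 = 0} := by
    have h := cno {p | p.1⁻¹ * p.2.1 ∈ V ∧ ¬ p.2.2 = 0}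
      ((hV.preimage e12).inter (hnum (fun n => ¬ n = 0) _ e3))
    refine (congrArg IsClosed ?_).mp h
    ext E
    constructor
    · intro hE p hp h1
      by_contra h2
      exact hE p hp ⟨h1, h2⟩
    · rintro hE p hp ⟨h1, h2⟩
      exact h2 (hE p hp h1)
  -- uniq
  have c5 : IsClosed {E : Fell (Tri G) | ∀ p ∈ E.1, ∀ q ∈ E.1, p.1⁻¹ * q.1 ∈ V →
      p.2.1⁻¹ * q.2.1 ∈ V → p.2.2 = q.2.2} := by
    have hO : IsOpen {z : Tri G × Tri G | z.1.1⁻¹ * z.2.1 ∈ V ∧ z.1.2.1⁻¹ * z.2.2.1 ∈ V ∧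
        ¬ z.1.2.2 = z.2.2.2} := by
      refine (hV.preimage ((e1.comp continuous_fst).inv.mul (e1.comp continuous_snd))).inter
        ((hV.preimage ((e2.comp continuous_fst).inv.mul (e2.comp continuous_snd))).inter ?_)
      exact (isOpen_discrete {n : ℕ × ℕ | ¬ n.1 = n.2}).preimage
        ((e3.comp continuous_fst).prodMk (e3.comp continuous_snd))
    have h := Fell.isClosed_cond2 (M := Tri G) _ hO Empty (fun j => j.elim) (fun j => j.elim)
    refine (congrArg IsClosed ?_).mp h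
    ext E
    constructor
    · intro hE p hp q hq h1 h2
      by_contra h3
      exact (hE p hp q hq ⟨h1, h2, h3⟩).choose.elim
    · rintro hE p hp q hq ⟨h1, h2, h3⟩
      exact absurd (hE p hp q hq h1 h2) h3
  -- eq
  have c6 : IsClosed {E : Fell (Tri G) | ∀ p ∈ E.1, p.2.2 = 0 → p.1 = p.2.1} := by
    have hO : IsOpen {p : Tri G | p.2.2 = 0 ∧ ¬ p.1 = p.2.1} :=
      (hnum (fun n => n = 0) _ e3).inter (isClosed_eq e1 e2).isOpen_compl
    have h := cno _ hO
    refine (congrArg IsClosed ?_).mp h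
    ext E
    constructor
    · intro hE p hp h1
      by_contra h2
      exact hE p hp ⟨h1, h2⟩
    · rintro hE p hp ⟨h1, h2⟩
      exact h2 (hE p hp h1)
  -- bdd
  have c7 : ∀ m, IsClosed {E : Fell (Tri G) | ∀ p ∈ E.1, p.1⁻¹ * p.2.1 ∈ U m → p.2.2 ≤ m} := by
    intro m
    have h := cno {p | p.1⁻¹ * p.2.1 ∈ U m ∧ ¬ p.2.2 ≤ m}
      (((hUo m).preimage e12).inter (hnum (fun n => ¬ n ≤ m) _ e3))
    refine (congrArg IsClosed ?_).mp h
    ext E
    constructor
    · intro hE p hp h1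
      by_contra h2
      exact hE p hp ⟨h1, h2⟩
    · rintro hE p hp ⟨h1, h2⟩
      exact h2 (hE p hp h1)
  -- tri
  have c8 : IsClosed {E : Fell (Tri G) | ∀ p ∈ E.1, ∀ q ∈ E.1, ∀ r ∈ E.1, p.2.1⁻¹ * q.1 ∈ V →
      q.2.1⁻¹ * r.2.1 ∈ V → p.1⁻¹ * r.1 ∈ V → r.2.2 ≤ p.2.2 + q.2.2} := by
    have hO : IsOpen {z : Tri G × Tri G × Tri G | z.1.2.1⁻¹ * z.2.1.1 ∈ V ∧
        z.2.1.2.1⁻¹ * z.2.2.2.1 ∈ V ∧ z.1.1⁻¹ * z.2.2.1 ∈ V ∧
        ¬ z.2.2.2.2 ≤ z.1.2.2 + z.2.1.2.2} := by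
      have p1 : Continuous (fun z : Tri G × Tri G × Tri G => z.1) := by fun_prop
      have p2 : Continuous (fun z : Tri G × Tri G × Tri G => z.2.1) := by fun_prop
      have p3 : Continuous (fun z : Tri G × Tri G × Tri G => z.2.2) := by fun_prop
      refine (hV.preimage ((e2.comp p1).inv.mul (e1.comp p2))).inter
        ((hV.preimage ((e2.comp p2).inv.mul (e2.comp p3))).inter
        ((hV.preimage ((e1.comp p1).inv.mul (e1.comp p3))).inter ?_))
      exact (isOpen_discrete {n : ℕ × ℕ × ℕ | ¬ n.2.2 ≤ n.1 + n.2.1}).preimage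
        ((e3.comp p1).prodMk ((e3.comp p2).prodMk (e3.comp p3)))
    have h := Fell.isClosed_cond3 (M := Tri G) _ hO
    refine (congrArg IsClosed ?_).mp h
    ext E
    constructor
    · intro hE p hp q hq r hr h1 h2 h3
      by_contra h4
      exact hE p hp q hq r hr ⟨h1, h2, h3, h4⟩
    · rintro hE p hp q hq r hr ⟨h1, h2, h3, h4⟩
      exact h4 (hE p hp q hq r hr h1 h2 h3)
  -- hyp
  have c9 : IsClosed {E : Fell (Tri G) | ∀ ab ∈ E.1, ∀ oc ∈ E.1, ∀ ac ∈ E.1, ∀ ob ∈ E.1,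
      ∀ bc ∈ E.1, ∀ oa ∈ E.1,
      ab.1⁻¹ * ac.1 ∈ V → ab.1⁻¹ * oa.2.1 ∈ V → ab.2.1⁻¹ * ob.2.1 ∈ V → ab.2.1⁻¹ * bc.1 ∈ V →
      oc.1⁻¹ * ob.1 ∈ V → oc.1⁻¹ * oa.1 ∈ V → oc.2.1⁻¹ * ac.2.1 ∈ V → oc.2.1⁻¹ * bc.2.1 ∈ V →
      ab.2.2 + oc.2.2 ≤ max (ac.2.2 + ob.2.2) (bc.2.2 + oa.2.2) + 2 * δ} := by
    have hO : IsOpen {z : Tri G × Tri G × Tri G × Tri G × Tri G × Tri G |
        z.1.1⁻¹ * z.2.2.1.1 ∈ V ∧ z.1.1⁻¹ * z.2.2.2.2.2.2.1 ∈ V ∧
        z.1.2.1⁻¹ * z.2.2.2.1.2.1 ∈ V ∧ z.1.2.1⁻¹ * z.2.2.2.2.1.1 ∈ V ∧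
        z.2.1.1⁻¹ * z.2.2.2.1.1 ∈ V ∧ z.2.1.1⁻¹ * z.2.2.2.2.2.1 ∈ V ∧
        z.2.1.2.1⁻¹ * z.2.2.1.2.1 ∈ V ∧ z.2.1.2.1⁻¹ * z.2.2.2.2.1.2.1 ∈ V ∧
        ¬ z.1.2.2 + z.2.1.2.2 ≤ max (z.2.2.1.2.2 + z.2.2.2.1.2.2)
          (z.2.2.2.2.1.2.2 + z.2.2.2.2.2.2.2) + 2 * δ} := by
      have p1 : Continuous (fun z : Tri G × Tri G × Tri G × Tri G × Tri G × Tri G => z.1) := by fun_prop
      have p2 : Continuous (fun z : Tri G × Tri G × Tri G × Tri G × Tri G × Tri G => z.2.1) := by fun_prop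
      have p3 : Continuous (fun z : Tri G × Tri G × Tri G × Tri G × Tri G × Tri G => z.2.2.1) := by fun_prop
      have p4 : Continuous (fun z : Tri G × Tri G × Tri G × Tri G × Tri G × Tri G => z.2.2.2.1) := by fun_prop
      have p5 : Continuous (fun z : Tri G × Tri G × Tri G × Tri G × Tri G × Tri G => z.2.2.2.2.1) := by fun_prop
      have p6 : Continuous (fun z : Tri G × Tri G × Tri G × Tri G × Tri G × Tri G => z.2.2.2.2.2) := by fun_prop
      refine (hV.preimage ((e1.comp p1).inv.mul (e1.comp p3))).inter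
        ((hV.preimage ((e1.comp p1).inv.mul (e2.comp p6))).inter
        ((hV.preimage ((e2.comp p1).inv.mul (e2.comp p4))).inter
        ((hV.preimage ((e2.comp p1).inv.mul (e1.comp p5))).inter
        ((hV.preimage ((e1.comp p2).inv.mul (e1.comp p4))).inter
        ((hV.preimage ((e1.comp p2).inv.mul (e1.comp p6))).inter
        ((hV.preimage ((e2.comp p2).inv.mul (e2.comp p3))).inter
        ((hV.preimage ((e2.comp p2).inv.mul (e2.comp p5))).inter ?_)))))))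
      exact (isOpen_discrete {n : ℕ × ℕ × ℕ × ℕ × ℕ × ℕ | ¬ n.1 + n.2.1 ≤
        max (n.2.2.1 + n.2.2.2.1) (n.2.2.2.2.1 + n.2.2.2.2.2) + 2 * δ}).preimage
        ((e3.comp p1).prodMk ((e3.comp p2).prodMk ((e3.comp p3).prodMk ((e3.comp p4).prodMk
          ((e3.comp p5).prodMk (e3.comp p6))))))
    have h := Fell.isClosed_cond6 (M := Tri G) _ hO
    refine (congrArg IsClosed ?_).mp h
    ext E
    constructor
    · intro hE ab hab oc hoc ac hac ob hob bc hbc oa hoa h1 h2 h3 h4 h5 h6 h7 h8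
      by_contra h9
      exact hE ab hab oc hoc ac hac ob hob bc hbc oa hoa ⟨h1, h2, h3, h4, h5, h6, h7, h8, h9⟩
    · rintro hE ab hab oc hoc ac hac ob hob bc hbc oa hoa ⟨h1, h2, h3, h4, h5, h6, h7, h8, h9⟩
      exact h9 (hE ab hab oc hoc ac hac ob hob bc hbc oa hoa h1 h2 h3 h4 h5 h6 h7 h8)
  -- count
  have c10 : ∀ R, IsClosed {E : Fell (Tri G) | ∀ p : Fin (B ^ (R + 1) + 1) → Tri G,
      (∀ i, p i ∈ E.1) → (∀ i, (p 0).1⁻¹ * (p i).1 ∈ V) → (∀ i, (p i).2.2 ≤ R) →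
      ¬ ∀ i j, i ≠ j → (p i).2.1 ≠ (p j).2.1} := by
    intro R
    have f1 : ∀ i, Continuous (fun p : Fin (B ^ (R + 1) + 1) → Tri G => (p i).1) := fun i =>
      e1.comp (continuous_apply i)
    have f2 : ∀ i, Continuous (fun p : Fin (B ^ (R + 1) + 1) → Tri G => (p i).2.1) := fun i =>
      e2.comp (continuous_apply i)
    have f3 : ∀ i, Continuous (fun p : Fin (B ^ (R + 1) + 1) → Tri G => (p i).2.2) := fun i =>
      e3.comp (continuous_apply i)
    have o1 : IsOpen {p : Fin (B ^ (R + 1) + 1) → Tri G | ∀ i, (p 0).1⁻¹ * (p i).1 ∈ V} := by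
      rw [ofPred_forall]
      exact isOpen_iInter_of_finite fun i => hV.preimage ((f1 0).inv.mul (f1 i))
    have o2 : IsOpen {p : Fin (B ^ (R + 1) + 1) → Tri G | ∀ i, (p i).2.2 ≤ R} := by
      rw [ofPred_forall]
      exact isOpen_iInter_of_finite fun i => hnum (fun n => n ≤ R) _ (f3 i)
    have o3 : IsOpen {p : Fin (B ^ (R + 1) + 1) → Tri G | ∀ i j, i ≠ j → (p i).2.1 ≠ (p j).2.1} := by
      rw [ofPred_forall]
      refine isOpen_iInter_of_finite fun i => ?_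
      rw [ofPred_forall]
      refine isOpen_iInter_of_finite fun j => ?_
      by_cases hij : i = j
      · have : {p : Fin (B ^ (R + 1) + 1) → Tri G | i ≠ j → (p i).2.1 ≠ (p j).2.1} = univ :=
          eq_univ_of_forall fun p h => absurd hij h
        rw [this]; exact isOpen_univ
      · have : {p : Fin (B ^ (R + 1) + 1) → Tri G | i ≠ j → (p i).2.1 ≠ (p j).2.1} =
            {p | (p i).2.1 = (p j).2.1}ᶜ := by
          ext p
          exact ⟨fun h => h hij, fun h _ => h⟩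
        rw [this]
        exact (isClosed_eq (f2 i) (f2 j)).isOpen_compl
    have h := Fell.isClosed_cond (M := Tri G) (B ^ (R + 1) + 1) _ (o1.inter (o2.inter o3)) Empty
      (fun j => j.elim) (fun j => j.elim)
    refine (congrArg IsClosed ?_).mp h
    ext E
    constructor
    · intro hE p hp h1 h2 h3
      exact (hE p hp ⟨h1, h2, h3⟩).choose.elim
    · rintro hE p hp ⟨h1, h2, h3⟩
      exact absurd h3 (hE p hp h1 h2)
  have hall := c1.inter (c2.inter ((isClosed_iInter c3).inter (c4.inter (c5.inter (c6.inter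
    ((isClosed_iInter c7).inter ((isClosed_iInter c10).inter (c8.inter c9))))))))
  refine (congrArg IsClosed ?_).mp hall
  ext E
  constructor
  · rintro ⟨h1, h2, h3, h4, h5, h6, h7, h10, h8, h9⟩
    exact ⟨h1, h2, fun m => mem_iInter.1 h3 m, h4, h5, h6, fun m => mem_iInter.1 h7 m,
      fun R => mem_iInter.1 h10 R, h8, h9⟩
  · intro h
    have h' : Cond V U B δ E.1 := h
    exact ⟨h'.refl, h'.symm, mem_iInter.2 fun m => h'.total m, h'.sep, h'.uniq, h'.eq,
      mem_iInter.2 fun m => h'.bdd m, mem_iInter.2 fun R => h'.count R, h'.tri, h'.hyp⟩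

/-- The space of hyperbolic nets is locally compact. -/
theorem locallyCompactSpace [LocallyCompactSpace G] [T2Space G] (hV : IsOpen V) (h1 : (1 : G) ∈ V)
    (hUo : ∀ n, IsOpen (U n)) (hU : ∀ g : G, ∃ n, g ∈ U n) :
    LocallyCompactSpace (HypNet G V U B δ) := by
  refine (isInducing_graph hV h1).locallyCompactSpace ?_
  rw [range_graph hV h1 hU]
  exact (isClosed_cond hV hUo).isLocallyClosed.inter (Fell.isOpen_hit isOpen_univ).isLocallyClosed

end HypNet

end Pool.Agent.BCH
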