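import Pool.Agent.Lib.MP_aa9b81_an.HN.N2

/-!
# Hyperbolic nets are countable
-/

open Topology Set MeasureTheory MeasureTheory.Measure ENNReal NNReal
open scoped Pointwise

namespace Pool.Agent.BCH

universe u v w

namespace HypNet

variable {G : Type u} [Group G] [TopologicalSpace G] [IsTopologicalGroup G]
variable {V : Set G} {U : ℕ → Set G} {B δ : ℕ}

/-- A neighbourhood `W` of `1` with `W W⁻¹ ⊆ V`. -/
theorem exists_small (hV : IsOpen V) (h1 : (1 : G) ∈ V) :
    ∃ W : Set G, IsOpen W ∧ (1 : G) ∈ W ∧ ∀ u ∈ W, ∀ v ∈ W, u * v⁻¹ ∈ V := by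
  have hc : Continuous (fun p : G × G => p.1 * p.2⁻¹) := by fun_prop
  have h2 : ((1 : G), (1 : G)) ∈ (fun p : G × G => p.1 * p.2⁻¹) ⁻¹' V := by
    show (1 : G) * 1⁻¹ ∈ V
    simpa using h1
  obtain ⟨A, B, hA, hB, h1A, h1B, hAB⟩ := isOpen_prod_iff.1 (hV.preimage hc) _ _ h2
  refine ⟨A ∩ B, hA.inter hB, ⟨h1A, h1B⟩, ?_⟩
  intro u hu v hv
  exact hAB (mk_mem_prod hu.1 hv.2)

omit [IsTopologicalGroup G] in
/-- The translates `a W` of a small neighbourhood by the points of a net are disjoint. -/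
theorem disjoint_translates {W : Set G} (hW : ∀ u ∈ W, ∀ v ∈ W, u * v⁻¹ ∈ V)
    (x : HypNet G V U B δ) : x.carrier.PairwiseDisjoint (fun a => a • W) := by
  intro a ha b hb hab
  rw [Function.onFun, Set.disjoint_left]
  rintro _ ⟨u, hu, rfl⟩ ⟨v, hv, huv⟩
  apply hab
  apply x.sep a ha b hb
  have h : b * v = a * u := huv
  have h2 : a⁻¹ * b = u * v⁻¹ := by
    rw [inv_mul_eq_iff_eq_mul, ← mul_assoc, ← h, mul_inv_cancel_right]
  rw [h2]
  exact hW u hu v hv

theorem countable_carrier [SecondCountableTopology G] (hV : IsOpen V) (h1 : (1 : G) ∈ V)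
    (x : HypNet G V U B δ) : x.carrier.Countable := by
  obtain ⟨W, hW, h1W, hWV⟩ := exists_small hV h1
  refine (disjoint_translates hWV x).countable_of_isOpen (fun a _ => hW.smul a) ?_
  intro a _
  exact ⟨a • (1 : G), smul_mem_smul_set h1W⟩

end HypNet

end Pool.Agent.BCH
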