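import Pool.Agent.Lib.MP_aa9b81_an.H.HDefs
import Pool.Agent.Lib.MP_aa9b81_an.HN.N6

/-!
# The space of hyperbolic nets is a hyperbolic `G`-space
-/

open Topology Set MeasureTheory MeasureTheory.Measure ENNReal NNReal
open scoped Pointwise

namespace Pool.Agent.BCH

universe u v w

namespace HypNet

variable {G : Type u} [Group G] [TopologicalSpace G] [IsTopologicalGroup G]
  [LocallyCompactSpace G] [SecondCountableTopology G] [T2Space G] [MeasurableSpace G]
  [BorelSpace G]
variable {V : Set G} {U : ℕ → Set G} {B δ : ℕ}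

omit [SecondCountableTopology G] [T2Space G] [MeasurableSpace G] [BorelSpace G]
  [IsTopologicalGroup G] in
/-- The nets of a compact set meet the interior of a common compact set. -/
theorem exists_meet {Q : Set (HypNet G V U B δ)} (hQ : IsCompact Q) :
    ∃ K₀ : Set G, IsCompact K₀ ∧ ∀ x ∈ Q, ∃ a ∈ x.carrier, a ∈ interior K₀ := by
  have h0 : ∀ g : G, ∃ K : Set G, IsCompact K ∧ K ∈ 𝓝 g := fun g => exists_compact_mem_nhds g
  choose L hL hLg using h0
  let O : G → Set (HypNet G V U B δ) := fun g =>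
    {x | (x.graphSet ∩ {p : G × G × ℕ | p.1 ∈ interior (L g)}).Nonempty}
  have hO : ∀ g, IsOpen (O g) := fun g =>
    TopologicalSpace.isOpen_generateFrom_of_mem
      (Or.inl ⟨_, isOpen_interior.preimage continuous_fst, rfl⟩)
  have hc : Q ⊆ ⋃ g, O g := by
    intro x _
    obtain ⟨a, ha⟩ := x.nonempty
    exact mem_iUnion.2 ⟨a, (a, a, 0), ⟨ha, ha, x.self a ha⟩, mem_interior_iff_mem_nhds.2 (hLg a)⟩
  obtain ⟨t, ht⟩ := hQ.elim_finite_subcover O hO hc
  refine ⟨⋃ g ∈ t, L g, t.isCompact_biUnion fun g _ => hL g, ?_⟩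
  intro x hx
  obtain ⟨g, hg, p, hp, hpn⟩ := mem_iUnion₂.1 (ht hx)
  exact ⟨p.1, hp.1, interior_mono (subset_biUnion_of_mem (u := fun g => L g) hg) hpn⟩

omit [LocallyCompactSpace G] [T2Space G] in
/-- A Borel choice of points of a net near the points of the group. -/
theorem exists_select (hV : IsOpen V) (h1 : (1 : G) ∈ V) (K₀ : Set G) (x : HypNet G V U B δ) :
    ∃ (e : ℕ → G) (ν : G → ℕ), Measurable ν ∧ (∀ n, e n ∈ x.carrier) ∧
      ∀ g : G, (∃ a ∈ x.carrier, g⁻¹ * a ∈ interior K₀) → g⁻¹ * e (ν g) ∈ K₀ := by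
  classical
  obtain ⟨e, he⟩ := (countable_carrier hV h1 x).exists_eq_range x.nonempty
  let p : G → ℕ → Prop := fun g n => g⁻¹ * e n ∈ interior K₀
  have hm : ∀ n, MeasurableSet {h | p h n} := by
    intro n
    exact (isOpen_interior.preimage (by fun_prop : Continuous fun g : G => g⁻¹ * e n)).measurableSet
  let p' : G → ℕ → Prop := fun h n => p h n ∨ ∀ k, ¬ p h k
  have hp' : ∀ h, ∃ n, p' h n := by
    intro h
    by_cases hh : ∃ n, p h n
    · obtain ⟨n, hn⟩ := hh
      exact ⟨n, Or.inl hn⟩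
    · push Not at hh
      exact ⟨0, Or.inr hh⟩
  have hm' : ∀ n, MeasurableSet {h | p' h n} := by
    intro n
    have : {h | p' h n} = {h | p h n} ∪ ⋂ k, {h | p h k}ᶜ := by
      ext h; simp [p']
    rw [this]
    exact (hm n).union (MeasurableSet.iInter fun k => (hm k).compl)
  refine ⟨e, fun h => Nat.find (hp' h), measurable_find hp' hm', ?_, ?_⟩
  · intro n
    rw [he]
    exact mem_range_self n
  · rintro g ⟨a, ha, hga⟩
    rw [he] at ha
    obtain ⟨k, rfl⟩ := ha
    have h2 := Nat.find_spec (hp' g)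
    rcases h2 with h2 | h2
    · exact interior_subset h2
    · exact absurd hga (h2 k)

omit [T2Space G] in
/-- **The space of hyperbolic nets is a hyperbolic `G`-space.** -/
theorem hyperbolic (hV : IsOpen V) (h1 : (1 : G) ∈ V) (hUo : ∀ n, IsOpen (U n))
    (hU : ∀ g : G, ∃ n, g ∈ U n) :
    HyperbolicGSpace G (HypNet G V U B δ) := by
  intro Q hQ
  obtain ⟨K₀, hK₀, hmeet⟩ := exists_meet hQ
  -- balls are finite
  have hcount : ∀ (x : HypNet G V U B δ) (a : G), a ∈ x.carrier → ∀ R : ℕ,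
      ∃ F : Finset G, F.card ≤ B ^ (R + 1) ∧ ∀ p ∈ x.carrier, x.dist a p ≤ R → p ∈ F := by
    intro x a ha R
    have hfin : {p | p ∈ x.carrier ∧ x.dist a p ≤ R}.Finite := by
      by_contra hinf
      obtain ⟨t, ht, htc⟩ := Set.Infinite.exists_subset_card_eq hinf (B ^ (R + 1) + 1)
      have := x.count a ha R t fun p hp => ht hp
      omega
    refine ⟨hfin.toFinset, x.count a ha R _ fun p hp => by simpa using hp, ?_⟩
    intro p hp hpR
    simpa using ⟨hp, hpR⟩
  choose e ν hν he hsel using fun x : HypNet G V U B δ => exists_select hV h1 K₀ x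
  -- the selected point
  let s : HypNet G V U B δ → G → G := fun x g => e x (ν x g)
  have hsD : ∀ x g, s x g ∈ x.carrier := fun x g => he x _
  have hs : ∀ x, ∀ g ∈ (ret Q x : Set G), g⁻¹ * s x g ∈ K₀ := by
    intro x g hg
    obtain ⟨a, ha, haK⟩ := hmeet _ hg
    refine hsel x g ⟨g * a, ?_, by simpa using haK⟩
    have := (mem_smul g⁻¹ x a).1 ha
    simpa using this
  have hstep : ∀ (C : Set G), ∀ x, ∀ a ∈ (ret Q x : Set G), ∀ b ∈ (ret Q x : Set G), a⁻¹ * b ∈ C →
      (s x a)⁻¹ * s x b ∈ K₀⁻¹ * C * K₀ := by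
    intro C x a ha b hb hab
    have h2 : (s x a)⁻¹ * s x b = (a⁻¹ * s x a)⁻¹ * (a⁻¹ * b) * (b⁻¹ * s x b) := by group
    rw [h2]
    exact mul_mem_mul (mul_mem_mul (inv_mem_inv.2 (hs x a ha)) hab) (hs x b hb)
  refine ⟨δ, fun x a b => x.dist (s x a) (s x b), ?_⟩
  constructor
  · intro x
    have h2 : Measurable (fun q : G × G => (ν x q.1, ν x q.2)) :=
      ((hν x).comp measurable_fst).prodMk ((hν x).comp measurable_snd)
    exact (measurable_of_countable
      (fun q : ℕ × ℕ => ((x.dist (e x q.1) (e x q.2) : ℕ) : ℝ))).comp h2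
  · intro x a _
    show ((x.dist (s x a) (s x a) : ℕ) : ℝ) = 0
    rw [x.self _ (hsD x a), Nat.cast_zero]
  · intro x a _ b _
    show ((x.dist (s x a) (s x b) : ℕ) : ℝ) = ((x.dist (s x b) (s x a) : ℕ) : ℝ)
    rw [x.symm _ (hsD x a) _ (hsD x b)]
  · intro x a _ b _ c _
    have := x.tri _ (hsD x a) _ (hsD x b) _ (hsD x c)
    show ((x.dist (s x a) (s x c) : ℕ) : ℝ) ≤ ((x.dist (s x a) (s x b) : ℕ) : ℝ) +
      ((x.dist (s x b) (s x c) : ℕ) : ℝ)
    exact_mod_cast this
  · intro x o _ a _ b _ c _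
    have := x.hyp _ (hsD x o) _ (hsD x a) _ (hsD x b) _ (hsD x c)
    show ((x.dist (s x a) (s x b) : ℕ) : ℝ) + ((x.dist (s x o) (s x c) : ℕ) : ℝ) ≤
      max (((x.dist (s x a) (s x c) : ℕ) : ℝ) + ((x.dist (s x o) (s x b) : ℕ) : ℝ))
        (((x.dist (s x b) (s x c) : ℕ) : ℝ) + ((x.dist (s x o) (s x a) : ℕ) : ℝ)) + 2 * (δ : ℝ)
    exact_mod_cast this
  · intro C hC
    -- the compact set `K₀⁻¹ C K₀` is covered by finitely many of the `U n`
    have hcomp : IsCompact (K₀⁻¹ * C * K₀) := (hK₀.inv.mul hC).mul hK₀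
    obtain ⟨t, ht⟩ := hcomp.elim_finite_subcover U hUo (fun g _ => mem_iUnion.2 (hU g))
    refine ⟨((∑ n ∈ t, n : ℕ) : ℝ), fun x a ha b hb hab => ?_⟩
    obtain ⟨n, hn, hg⟩ := mem_iUnion₂.1 (ht (hstep C x a ha b hb hab))
    have h2 := x.bdd _ (hsD x a) _ (hsD x b) n hg
    show ((x.dist (s x a) (s x b) : ℕ) : ℝ) ≤ _
    exact_mod_cast h2.trans (Finset.single_le_sum (f := fun n => n) (fun _ _ => Nat.zero_le _) hn)
  · intro C hC c hc ε hε
    have hM : (haar : Measure G) K₀⁻¹ ≠ ∞ := hK₀.inv.measure_lt_top.ne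
    obtain ⟨M, hM'⟩ : ∃ M : ℕ, (haar : Measure G) K₀⁻¹ ≤ M := by
      obtain ⟨M, hM'⟩ := ENNReal.exists_nat_gt hM
      exact ⟨M, hM'.le⟩
    have hB1 : (1 : ℝ) ≤ B + 1 := by
      have : (0 : ℝ) ≤ B := Nat.cast_nonneg B
      linarith
    have hB0 : (0 : ℝ) < B + 1 := lt_of_lt_of_le one_pos hB1
    have hlogB : 0 ≤ Real.log (B + 1) := Real.log_nonneg hB1
    have e1 : ∀ᶠ n : ℕ in Filter.atTop, ((B + 1) * M : ℝ) ≤ Real.exp (ε / 2 * n) := by
      have : Filter.Tendsto (fun n : ℕ => Real.exp (ε / 2 * n)) Filter.atTop Filter.atTop :=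
        Real.tendsto_exp_atTop.comp
          (tendsto_natCast_atTop_atTop.const_mul_atTop (by positivity))
      exact this.eventually_ge_atTop _
    have e2 : ∀ᶠ n : ℕ in Filter.atTop, Real.log (B + 1) * (c * Real.log n) ≤ ε / 2 * n := by
      have h3 := (Real.isLittleO_log_id_atTop.comp_tendsto tendsto_natCast_atTop_atTop).def
        (show 0 < (ε / 2) / (Real.log (B + 1) * c + 1) by positivity)
      filter_upwards [h3, Filter.eventually_ge_atTop 1] with n hn hn1
      have hn' : |Real.log n| ≤ (ε / 2) / (Real.log (B + 1) * c + 1) * n := by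
        simpa using hn
      calc Real.log (B + 1) * (c * Real.log n) = (Real.log (B + 1) * c) * Real.log n := by ring
        _ ≤ (Real.log (B + 1) * c) * |Real.log n| :=
            mul_le_mul_of_nonneg_left (le_abs_self _) (by positivity)
        _ ≤ (Real.log (B + 1) * c + 1) * |Real.log n| := by
            apply mul_le_mul_of_nonneg_right _ (abs_nonneg _)
            linarith
        _ ≤ (Real.log (B + 1) * c + 1) * ((ε / 2) / (Real.log (B + 1) * c + 1) * n) :=
            mul_le_mul_of_nonneg_left hn' (by positivity)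
        _ = ε / 2 * n := by field_simp
    filter_upwards [e1, e2, Filter.eventually_ge_atTop 1] with n hn1 hn2 hn3
    intro x a ha
    have hlog : 0 ≤ c * Real.log n :=
      mul_nonneg hc.le (Real.log_nonneg (by exact_mod_cast hn3))
    obtain ⟨F, hF, hFp⟩ := hcount x (s x a) (hsD x a) ⌊c * Real.log n⌋₊
    have hsub : {b | Reach (ret Q x) C n a b ∧
        ((x.dist (s x a) (s x b) : ℕ) : ℝ) ≤ c * Real.log n} ⊆ ⋃ p ∈ F, p • K₀⁻¹ := by
      rintro b ⟨hb1, hb2⟩
      have hb3 : b ∈ (ret Q x : Set G) := by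
        obtain ⟨g, -, hgn, hgS, -⟩ := hb1
        rw [← hgn]
        exact hgS n le_rfl
      have hpF : s x b ∈ F := hFp _ (hsD x b) (Nat.le_floor hb2)
      refine mem_iUnion₂.2 ⟨s x b, hpF, (b⁻¹ * s x b)⁻¹, inv_mem_inv.2 (hs x b hb3), ?_⟩
      show s x b * (b⁻¹ * s x b)⁻¹ = b
      group
    have hcard : (F.card : ℝ) ≤ (B + 1) * Real.exp (Real.log (B + 1) * (c * Real.log n)) := by
      calc (F.card : ℝ) ≤ ((B ^ (⌊c * Real.log n⌋₊ + 1) : ℕ) : ℝ) := by exact_mod_cast hF
        _ = (B : ℝ) ^ (⌊c * Real.log n⌋₊ + 1) := by push_cast; rfl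
        _ ≤ ((B : ℝ) + 1) ^ (⌊c * Real.log n⌋₊ + 1) := by
            have : (0 : ℝ) ≤ B := Nat.cast_nonneg B
            gcongr
            linarith
        _ = (B + 1) * Real.exp (Real.log (B + 1) * ⌊c * Real.log n⌋₊) := by
            rw [mul_comm (Real.log (B + 1)), Real.exp_nat_mul, Real.exp_log hB0, pow_succ,
              mul_comm]
        _ ≤ (B + 1) * Real.exp (Real.log (B + 1) * (c * Real.log n)) := by
            have := Nat.floor_le hlog
            gcongr
    calc (haar : Measure G) {b | Reach (ret Q x) C n a b ∧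
          ((x.dist (s x a) (s x b) : ℕ) : ℝ) ≤ c * Real.log n}
        ≤ (haar : Measure G) (⋃ p ∈ F, p • K₀⁻¹) := measure_mono hsub
      _ ≤ ∑ p ∈ F, (haar : Measure G) (p • K₀⁻¹) := measure_biUnion_finset_le _ _
      _ = (F.card : ℝ≥0∞) * (haar : Measure G) K₀⁻¹ := by
          simp only [measure_smul, Finset.sum_const, nsmul_eq_mul]
      _ ≤ (F.card : ℝ≥0∞) * M := by gcongr
      _ = ENNReal.ofReal (F.card * M) := by
          rw [ENNReal.ofReal_mul (Nat.cast_nonneg _), ENNReal.ofReal_natCast,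
            ENNReal.ofReal_natCast]
      _ ≤ ENNReal.ofReal (Real.exp (ε * n)) := by
          apply ENNReal.ofReal_le_ofReal
          calc (F.card : ℝ) * M ≤ (B + 1) * Real.exp (Real.log (B + 1) * (c * Real.log n)) * M := by gcongr
            _ = ((B + 1) * M) * Real.exp (Real.log (B + 1) * (c * Real.log n)) := by ring
            _ ≤ Real.exp (ε / 2 * n) * Real.exp (ε / 2 * n) :=
                mul_le_mul hn1 (Real.exp_le_exp.2 hn2) (Real.exp_pos _).le (Real.exp_pos _).le
            _ = Real.exp (ε * n) := by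
                rw [← Real.exp_add]
                congr 1
                ring

end HypNet

end Pool.Agent.BCH
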